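import Pool.Agent.Helper475.Kuhn

set_option autoImplicit false

namespace Pool.Agent.H421Z.TEmb

open Finset

/-- A weak bound for skew set pair systems. -/
theorem skew (b a : ℕ) : ∃ h : ℕ, ∀ (L : Type) [DecidableEq L] (J : Finset ℕ) (A B : ℕ → Finset L),
    (∀ j ∈ J, (A j).card ≤ a) → (∀ j ∈ J, (B j).card ≤ b) → (∀ j ∈ J, Disjoint (A j) (B j)) →
    (∀ i ∈ J, ∀ j ∈ J, i < j → ¬ Disjoint (A j) (B i)) → J.card ≤ h := by
  induction a with
  | zero =>
    refine ⟨1, ?_⟩
    intro L _ J A B hA _ _ hx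
    rw [Finset.card_le_one]
    intro i hi j hj
    by_contra hne
    rcases lt_or_gt_of_ne hne with h | h
    · apply hx i hi j hj h
      have : A j = ∅ := Finset.card_eq_zero.mp (Nat.le_zero.mp (hA j hj))
      rw [this]; exact Finset.disjoint_empty_left _
    · apply hx j hj i hi h
      have : A i = ∅ := Finset.card_eq_zero.mp (Nat.le_zero.mp (hA i hi))
      rw [this]; exact Finset.disjoint_empty_left _
  | succ a ih =>
    obtain ⟨h, hh⟩ := ih
    refine ⟨1 + b * h, ?_⟩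
    intro L _ J A B hA hB hd hx
    rcases J.eq_empty_or_nonempty with rfl | hne
    · simp
    set i0 := J.min' hne with hi0
    have hi0J : i0 ∈ J := J.min'_mem hne
    have hsub : J ⊆ insert i0 ((B i0).biUnion (fun x => J.filter (fun j => x ∈ A j))) := by
      intro j hj
      by_cases hji : j = i0
      · rw [hji]; exact Finset.mem_insert_self _ _
      · have hlt : i0 < j := lt_of_le_of_ne (J.min'_le j hj) (Ne.symm hji)
        have := hx i0 hi0J j hj hlt
        rw [Finset.not_disjoint_iff] at this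
        obtain ⟨x, hxA, hxB⟩ := this
        apply Finset.mem_insert_of_mem
        rw [Finset.mem_biUnion]
        exact ⟨x, hxB, Finset.mem_filter.mpr ⟨hj, hxA⟩⟩
    have hcard : ∀ x : L, (J.filter (fun j => x ∈ A j)).card ≤ h := by
      intro x
      apply hh L (J.filter (fun j => x ∈ A j)) (fun j => (A j).erase x) B
      · intro j hj
        rw [Finset.mem_filter] at hj
        rw [Finset.card_erase_of_mem hj.2]
        have := hA j hj.1
        omega
      · intro j hj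
        exact hB j (Finset.mem_filter.mp hj).1
      · intro j hj
        exact Finset.disjoint_of_subset_left (Finset.erase_subset _ _) (hd j (Finset.mem_filter.mp hj).1)
      · intro i hi j hj hlt
        rw [Finset.mem_filter] at hi hj
        have := hx i hi.1 j hj.1 hlt
        rw [Finset.not_disjoint_iff] at this ⊢
        obtain ⟨y, hyA, hyB⟩ := this
        refine ⟨y, Finset.mem_erase.mpr ⟨?_, hyA⟩, hyB⟩
        rintro rfl
        exact (Finset.disjoint_left.mp (hd i hi.1)) hi.2 hyB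
    calc J.card ≤ (insert i0 ((B i0).biUnion (fun x => J.filter (fun j => x ∈ A j)))).card :=
          Finset.card_le_card hsub
      _ ≤ ((B i0).biUnion (fun x => J.filter (fun j => x ∈ A j))).card + 1 := Finset.card_insert_le _ _
      _ ≤ (B i0).card * h + 1 := by
          have := Finset.card_biUnion_le_card_mul (B i0) (fun x => J.filter (fun j => x ∈ A j)) h
            (fun x _ => hcard x)
          omega
      _ ≤ 1 + b * h := by
          have := Nat.mul_le_mul_right h (hB i0 hi0J)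
          omega

section

variable {V : Type} [DecidableEq V]

/-- Certificates of size at most `N` for the value at least `θ`. -/
def PP (N : ℕ) (ψ : (V → Bool) → ℝ) (θ : ℝ) : Set (Finset (V × Bool)) :=
  {A | A.card ≤ N ∧ (∃ g0 : V → Bool, ∀ l ∈ A, g0 l.1 = l.2) ∧
    ∀ g : V → Bool, (∀ l ∈ A, g l.1 = l.2) → θ ≤ ψ g}

/-- Transversals of size at most `N`. -/
def TT (N : ℕ) (ψ : (V → Bool) → ℝ) (θ : ℝ) : Set (Finset (V × Bool)) :=
  {B | B.card ≤ N ∧ ∀ A ∈ PP N ψ θ, ¬ Disjoint A B}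

/-- The state decides the value at `e`. -/
def WW (T : Set (Finset (V × Bool))) (e : V → Bool) : Prop :=
  ∃ A : Finset (V × Bool), (∀ l ∈ A, e l.1 = l.2) ∧ ∀ B ∈ T, ¬ Disjoint A B

theorem TT_mono (N : ℕ) (ψ ψ' : (V → Bool) → ℝ) (θ θ' : ℝ)
    (h : ∀ g, θ' ≤ ψ' g → θ ≤ ψ g) : TT N ψ θ ⊆ TT N ψ' θ' := by
  intro B hB
  refine ⟨hB.1, fun A hA => hB.2 A ⟨hA.1, hA.2.1, fun g hg => h g (hA.2.2 g hg)⟩⟩

theorem WW_pos (N : ℕ) (ψ : (V → Bool) → ℝ) (θ : ℝ) (hθ : θ ≤ 2 / 3) (e : V → Bool)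
    (S : Finset V) (hS : S.card ≤ N) (h : ∀ g, ψ g < 2 / 3 → ∃ s ∈ S, g s ≠ e s) :
    WW (TT N ψ θ) e := by
  refine ⟨S.image (fun s => (s, e s)), ?_, ?_⟩
  · intro l hl
    rw [Finset.mem_image] at hl
    obtain ⟨s, _, rfl⟩ := hl
    rfl
  · intro B hB
    apply hB.2
    refine ⟨Finset.card_image_le.trans hS, ⟨e, ?_⟩, ?_⟩
    · intro l hl
      rw [Finset.mem_image] at hl
      obtain ⟨s, _, rfl⟩ := hl
      rfl
    · intro g hg
      by_contra hlt
      obtain ⟨s, hs, hne⟩ := h g (by linarith [not_le.mp hlt])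
      exact hne (hg (s, e s) (Finset.mem_image.mpr ⟨s, hs, rfl⟩))

theorem WW_neg (N : ℕ) (ψ : (V → Bool) → ℝ) (θ : ℝ) (hθ : 1 / 3 < θ) (e : V → Bool)
    (S : Finset V) (hS : S.card ≤ N) (h : ∀ g, 1 / 3 < ψ g → ∃ s ∈ S, g s ≠ e s) :
    ¬ WW (TT N ψ θ) e := by
  classical
  rintro ⟨A, hA, hT⟩
  apply hT (S.image (fun s => (s, !e s)))
  · refine ⟨Finset.card_image_le.trans hS, ?_⟩
    rintro A' ⟨_, ⟨g0, hg0⟩, hA'⟩
    set g : V → Bool := fun s => if ∃ c, (s, c) ∈ A' then g0 s else e s with hg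
    have h1 : ∀ l ∈ A', g l.1 = l.2 := by
      intro l hl
      have : ∃ c, (l.1, c) ∈ A' := ⟨l.2, hl⟩
      simp only [hg, this, if_true]
      exact hg0 l hl
    obtain ⟨s, hs, hne⟩ := h g (lt_of_lt_of_le hθ (hA' g h1))
    rw [Finset.not_disjoint_iff]
    by_cases hex : ∃ c, (s, c) ∈ A'
    · obtain ⟨c, hc⟩ := hex
      have h2 := h1 (s, c) hc
      refine ⟨(s, c), hc, Finset.mem_image.mpr ⟨s, hs, ?_⟩⟩
      simp only at h2
      rw [h2] at hne
      cases c <;> cases he : e s <;> simp_all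
    · exfalso
      apply hne
      simp only [hg, hex, if_false]
  · rw [Finset.disjoint_left]
    intro l hl hl'
    rw [Finset.mem_image] at hl'
    obtain ⟨s, _, rfl⟩ := hl'
    have := hA _ hl
    simp at this

theorem TT_stab (N h : ℕ)
    (hh : ∀ (J : Finset ℕ) (A B : ℕ → Finset (V × Bool)),
      (∀ j ∈ J, (A j).card ≤ N) → (∀ j ∈ J, (B j).card ≤ N) → (∀ j ∈ J, Disjoint (A j) (B j)) →
      (∀ i ∈ J, ∀ j ∈ J, i < j → ¬ Disjoint (A j) (B i)) → J.card ≤ h)
    (ψ : (V → Bool) → ℝ) (θ : ℕ → ℝ) (hθ : Monotone θ) :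
    ∃ j ≤ h, TT N ψ (θ (j + 1)) ⊆ TT N ψ (θ j) := by
  by_contra hcon
  push Not at hcon
  have : ∀ j : ℕ, ∃ AB : Finset (V × Bool) × Finset (V × Bool), j ≤ h →
      (AB.1 ∈ PP N ψ (θ j) ∧ AB.2 ∈ TT N ψ (θ (j + 1)) ∧ Disjoint AB.1 AB.2) := by
    intro j
    by_cases hj : j ≤ h
    · obtain ⟨B, hB, hB'⟩ := Set.not_subset.mp (hcon j hj)
      have : ¬ ∀ A ∈ PP N ψ (θ j), ¬ Disjoint A B := fun hx => hB' ⟨hB.1, hx⟩
      push Not at this
      obtain ⟨A, hA, hd⟩ := this
      exact ⟨(A, B), fun _ => ⟨hA, hB, hd⟩⟩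
    · exact ⟨(∅, ∅), fun hx => absurd hx hj⟩
  choose AB hAB using this
  have := hh (Finset.range (h + 1)) (fun j => (AB j).1) (fun j => (AB j).2)
    (fun j hj => (hAB j (by simpa [Nat.lt_succ_iff] using hj)).1.1)
    (fun j hj => (hAB j (by simpa [Nat.lt_succ_iff] using hj)).2.1.1)
    (fun j hj => (hAB j (by simpa [Nat.lt_succ_iff] using hj)).2.2)
    (by
      intro i hi j hj hij
      have h1 := (hAB i (by simpa [Nat.lt_succ_iff] using hi)).2.1
      have h2 := (hAB j (by simpa [Nat.lt_succ_iff] using hj)).1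
      have h3 := TT_mono N ψ ψ (θ (i + 1)) (θ j) (fun g hg => (hθ (by omega)).trans hg) h1
      exact h3.2 _ h2)
  simp at this

end

/-- The finite dimensional obstruction. -/
theorem cube (N : ℕ) : ∃ k : ℕ, ∀ Ψ : ((Fin k → Bool) → Bool) → (Fin k → unitInterval) → ℝ,
    (∀ g, Continuous (Ψ g)) →
    (∀ i t, t i = 1 → ∃ S : Finset (Fin k → Bool), S.card ≤ N ∧
      ∀ g, Ψ g t < 2 / 3 → ∃ s ∈ S, g s ≠ s i) →
    (∀ i t, t i = 0 → ∃ S : Finset (Fin k → Bool), S.card ≤ N ∧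
      ∀ g, 1 / 3 < Ψ g t → ∃ s ∈ S, g s ≠ s i) → False := by
  classical
  obtain ⟨h, hh⟩ := skew N N
  refine ⟨h + 1, ?_⟩
  intro Ψ hc h1 h0
  set η : ℝ := 1 / (3 * ((h : ℝ) + 2)) with hη
  have hηpos : 0 < η := by positivity
  set θ : ℕ → ℝ := fun j => 1 / 3 + ((j : ℝ) + 1) * η with hθ
  have hθmono : Monotone θ := by
    intro a b hab
    have : (a : ℝ) ≤ b := by exact_mod_cast hab
    simp only [hθ]
    nlinarith
  have hθlo : ∀ j, 1 / 3 < θ j := by
    intro j
    have : 0 < ((j : ℝ) + 1) * η := by positivity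
    simp only [hθ]; linarith
  have hθhi : ∀ j, j ≤ h → θ j ≤ 2 / 3 := by
    intro j hj
    have h2 : (j : ℝ) ≤ h := by exact_mod_cast hj
    have h3 : ((h : ℝ) + 2) * η = 1 / 3 := by
      rw [hη]; field_simp
    simp only [hθ]
    nlinarith
  have hθs : ∀ j, θ (j + 1) = θ j + η := by
    intro j; simp only [hθ]; push_cast; ring
  -- uniform continuity
  have huc : ∃ δ > 0, ∀ g t t', dist t t' < δ → dist (Ψ g t) (Ψ g t') < η := by
    have hF : UniformContinuous (fun t : Fin (h + 1) → unitInterval => fun g => Ψ g t) :=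
      CompactSpace.uniformContinuous_of_continuous (continuous_pi hc)
    obtain ⟨δ, hδ, hδ'⟩ := Metric.uniformContinuous_iff.mp hF η hηpos
    refine ⟨δ, hδ, fun g t t' htt => ?_⟩
    exact lt_of_le_of_lt (dist_le_pi_dist (fun g => Ψ g t) (fun g => Ψ g t') g) (hδ' htt)
  obtain ⟨δ, hδ, hδ'⟩ := huc
  obtain ⟨m0, hm0⟩ := exists_nat_one_div_lt hδ
  set m : ℕ := m0 + 1 with hm
  have hmpos : (0 : ℝ) < m := by rw [hm]; positivity
  have hmδ : 1 / (m : ℝ) < δ := by rw [hm]; push_cast; exact hm0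
  set pt : (ℕ → ℕ) → (Fin (h + 1) → unitInterval) :=
    fun x i => Set.projIcc (0 : ℝ) 1 zero_le_one ((x i : ℝ) / m) with hpt
  have hstab := fun t => TT_stab N h (hh ((Fin (h + 1) → Bool) × Bool)) (fun g => Ψ g t) θ hθmono
  choose jj hjj hjj' using hstab
  set st : (Fin (h + 1) → unitInterval) → Set (Finset ((Fin (h + 1) → Bool) × Bool)) :=
    fun t => TT N (fun g => Ψ g t) (θ (jj t)) with hst
  set lab : Set (Finset ((Fin (h + 1) → Bool) × Bool)) → ℕ :=
    fun T => sInf {i : ℕ | i = h + 1 ∨ ∃ hi : i < h + 1, WW T (fun s => s ⟨i, hi⟩)} with hlab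
  obtain ⟨x, _, hx⟩ := Pool.Agent.Helper475.Kuhn.kuhn (h + 1) m (fun x => lab (st (pt x)))
    (fun x _ => Nat.sInf_le (Or.inl rfl))
    (by
      intro i hi x _ hxi hcon
      have hmem : lab (st (pt x)) ∈
          {i : ℕ | i = h + 1 ∨ ∃ hi : i < h + 1, WW (st (pt x)) (fun s => s ⟨i, hi⟩)} :=
        Nat.sInf_mem ⟨h + 1, Or.inl rfl⟩
      rw [hcon] at hmem
      rcases hmem with h2 | ⟨hi', h2⟩
      · omega
      · obtain ⟨S, hS, hS'⟩ := h0 ⟨i, hi⟩ (pt x) (by
          simp only [hpt, hxi]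
          simp)
        exact WW_neg N (fun g => Ψ g (pt x)) (θ (jj (pt x))) (hθlo _) (fun s => s ⟨i, hi⟩) S hS hS' h2)
    (by
      intro i hi x _ hxi
      apply Nat.sInf_le
      right
      refine ⟨hi, ?_⟩
      obtain ⟨S, hS, hS'⟩ := h1 ⟨i, hi⟩ (pt x) (by
          simp only [hpt, hxi]
          rw [div_self hmpos.ne']
          simp)
      exact WW_pos N (fun g => Ψ g (pt x)) (θ (jj (pt x))) (hθhi _ (hjj _)) (fun s => s ⟨i, hi⟩) S hS hS')
  have hy : ∀ j : ℕ, ∃ y : ℕ → ℕ, j ≤ h + 1 →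
      ((∀ i, i < h + 1 → y i = x i ∨ y i = x i + 1) ∧ lab (st (pt y)) = j) := by
    intro j
    by_cases hj : j ≤ h + 1
    · obtain ⟨y, hy1, _, hy2⟩ := hx j hj
      exact ⟨y, fun _ => ⟨hy1, hy2⟩⟩
    · exact ⟨x, fun hx => absurd hx hj⟩
  choose y hy using hy
  obtain ⟨a, ha, b, hb, hab, hjab⟩ := Finset.exists_ne_map_eq_of_card_lt_of_maps_to
    (s := Finset.range (h + 2)) (t := Finset.range (h + 1)) (by simp)
    (f := fun j => jj (pt (y j))) (by
      intro j _
      simp only [Finset.coe_range, Set.mem_Iio]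
      exact Nat.lt_succ_of_le (hjj _))
  have ha' : a ≤ h + 1 := by simpa [Nat.lt_succ_iff] using ha
  have hb' : b ≤ h + 1 := by simpa [Nat.lt_succ_iff] using hb
  have hdist : dist (pt (y a)) (pt (y b)) < δ := by
    refine lt_of_le_of_lt ?_ hmδ
    rw [dist_pi_le_iff (by positivity)]
    intro i
    have hl := (LipschitzWith.projIcc (zero_le_one' ℝ)).dist_le_mul ((y a i : ℝ) / m) ((y b i : ℝ) / m)
    simp only [hpt]
    refine hl.trans ?_
    rw [NNReal.coe_one, one_mul, Real.dist_eq, ← sub_div, abs_div, abs_of_pos hmpos]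
    apply div_le_div_of_nonneg_right _ hmpos.le
    rw [abs_le]
    rcases (hy a ha').1 i i.2 with e1 | e1 <;> rcases (hy b hb').1 i i.2 with e2 | e2 <;>
      rw [e1, e2] <;> push_cast <;> constructor <;> linarith
  have key : ∀ t t' : Fin (h + 1) → unitInterval, dist t t' < δ → jj t = jj t' → st t ⊆ st t' := by
    intro t t' htt hj
    simp only [hst]
    refine subset_trans (TT_mono N _ (fun g => Ψ g t') _ (θ (jj t' + 1)) ?_) (hjj' t')
    intro g hg
    have := hδ' g t t' htt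
    rw [Real.dist_eq, abs_lt] at this
    rw [hθs] at hg
    rw [hj]
    linarith [this.1]
  have heq : st (pt (y a)) = st (pt (y b)) :=
    Set.Subset.antisymm (key _ _ hdist hjab) (key _ _ (by rw [dist_comm]; exact hdist) hjab.symm)
  apply hab
  rw [← (hy a ha').2, ← (hy b hb').2, heq]

end Pool.Agent.H421Z.TEmb
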