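import Mathlib

set_option autoImplicit false

namespace Pool.Agent.H421Z.TEmb

/-- `C_p(Z)`: the continuous real functions on `Z`, as a subspace of the product space `ℝ^Z`
(topology of pointwise convergence). -/
abbrev Cp (Z : Type*) [TopologicalSpace Z] : Type _ := {f : Z → ℝ // Continuous f}

/-- The subspace `Y` of `X` is t-embedded: there is a continuous extender `C_p(Y) → C_p(X)`. -/
def TEmbedded {X : Type*} [TopologicalSpace X] (Y : Set X) : Prop :=
  ∃ φ : Cp Y → Cp X, Continuous φ ∧ ∀ (f : Cp Y) (y : Y), (φ f).1 (y : X) = f.1 y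

/-- The Cantor cube `{0,1}^ι` as a subspace of the Tychonoff cube `[0,1]^ι`. -/
def cantorCube (ι : Type*) : Set (ι → unitInterval) := {x | ∀ i, x i = 0 ∨ x i = 1}

end Pool.Agent.H421Z.TEmb
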