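import Pool.Agent.H421Z.TEmb.Defs
import Pool.Agent.H421Z.TEmb.Comb

set_option autoImplicit false

namespace Pool.Agent.H421Z.TEmb

open Filter Topology

universe u

variable {ι : Type u}

/-- The coordinate function. -/
def coord (β : ι) : Cp (cantorCube ι) :=
  ⟨fun y => ((y.1 β : unitInterval) : ℝ),
    continuous_subtype_val.comp ((continuous_apply β).comp continuous_subtype_val)⟩

/-- Small families of points detect all finite families of functions with `sg * value < c`. -/
def ZZ (φ : Cp (cantorCube ι) → Cp (ι → unitInterval)) (β : ι) (sg c : ℝ) (n : ℕ) :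
    Set (ι → unitInterval) :=
  {x | ∀ F : Finset (Cp (cantorCube ι)), (∀ f ∈ F, sg * (φ f).1 x < c) →
    ∃ S : Finset (cantorCube ι), S.card ≤ n ∧ ∀ f ∈ F, ∃ s ∈ S, f.1 s ≠ (coord β).1 s}

theorem ZZ_mono (φ : Cp (cantorCube ι) → Cp (ι → unitInterval)) (β : ι) (sg c : ℝ) {n n' : ℕ}
    (h : n ≤ n') : ZZ φ β sg c n ⊆ ZZ φ β sg c n' := by
  intro x hx F hF
  obtain ⟨S, hS, hS'⟩ := hx F hF
  exact ⟨S, hS.trans h, hS'⟩

theorem ZZ_closed (φ : Cp (cantorCube ι) → Cp (ι → unitInterval)) (β : ι) (sg c : ℝ) (n : ℕ) :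
    IsClosed (ZZ φ β sg c n) := by
  rw [← isOpen_compl_iff, isOpen_iff_mem_nhds]
  intro x hx
  simp only [ZZ, Set.mem_compl_iff, Set.mem_setOf_eq, not_forall] at hx
  obtain ⟨F, hF, hno⟩ := hx
  have hev : ∀ᶠ x' in 𝓝 x, ∀ f ∈ F, sg * (φ f).1 x' < c := by
    rw [Filter.eventually_all_finset]
    intro f hf
    have hcont : Continuous (fun x' => sg * (φ f).1 x') := continuous_const.mul (φ f).2
    exact hcont.continuousAt.eventually_lt continuousAt_const (hF f hf)
  filter_upwards [hev] with x' hx'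
  intro hmem
  exact hno (hmem F hx')

theorem ZZ_cover (φ : Cp (cantorCube ι) → Cp (ι → unitInterval)) (hφ : Continuous φ) (β : ι)
    (sg c : ℝ) (x : ι → unitInterval) (hx : c < sg * (φ (coord β)).1 x) :
    ∃ n, x ∈ ZZ φ β sg c n := by
  classical
  have hcont : Continuous (fun f : Cp (cantorCube ι) => sg * (φ f).1 x) :=
    continuous_const.mul ((continuous_apply x).comp (continuous_subtype_val.comp hφ))
  have hev : ∀ᶠ f in 𝓝 (coord β), c < sg * (φ f).1 x :=
    continuousAt_const.eventually_lt hcont.continuousAt hx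
  rw [nhds_subtype, Filter.eventually_comap, nhds_pi] at hev
  obtain ⟨I, t, ht, hsub⟩ := Filter.mem_pi'.mp hev
  refine ⟨I.card, fun F hF => ⟨I, le_rfl, fun f hf => ?_⟩⟩
  by_contra hcon
  push Not at hcon
  have hmem : f.1 ∈ Set.pi (↑I) t := by
    intro s hs
    rw [hcon s hs]
    exact mem_of_mem_nhds (ht s)
  have := hsub hmem f rfl
  linarith [hF f hf]

open Classical in
theorem step1 (φ : Cp (cantorCube ι) → Cp (ι → unitInterval)) (hφ : Continuous φ)
    (hext : ∀ (f : Cp (cantorCube ι)) (y : cantorCube ι), (φ f).1 (y : ι → unitInterval) = f.1 y)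
    (β : ι) : ∃ (N : ℕ) (z : ι → unitInterval) (E : Finset ι), E.card ≤ N ∧
      ∀ x : ι → unitInterval, (∀ α ∈ E, α ≠ β → dist (x α) (z α) < 1 / ((N : ℝ) + 1)) →
        Function.update x β 1 ∈ ZZ φ β 1 (2 / 3) N ∧
        Function.update x β 0 ∈ ZZ φ β (-1) (-(1 / 3)) N := by
  have hu : ∀ b : unitInterval, Continuous (fun x : ι → unitInterval => Function.update x β b) :=
    fun b => continuous_id.update β continuous_const
  set O : Set (ι → unitInterval) := {x | 2 / 3 < 1 * (φ (coord β)).1 (Function.update x β 1) ∧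
    -(1 / 3) < (-1) * (φ (coord β)).1 (Function.update x β 0)} with hO
  have hOopen : IsOpen O := by
    apply IsOpen.inter
    · exact isOpen_lt continuous_const (continuous_const.mul ((φ (coord β)).2.comp (hu 1)))
    · exact isOpen_lt continuous_const (continuous_const.mul ((φ (coord β)).2.comp (hu 0)))
  have hOne : O.Nonempty := by
    refine ⟨fun _ => 0, ?_, ?_⟩
    · have hm : Function.update (fun _ : ι => (0 : unitInterval)) β 1 ∈ cantorCube ι := by
        intro i
        by_cases hi : i = β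
        · right; rw [hi]; simp
        · left; simp [Function.update_of_ne hi]
      have := hext (coord β) ⟨_, hm⟩
      simp only at this
      rw [this]
      simp [coord]
      norm_num
    · have hm : Function.update (fun _ : ι => (0 : unitInterval)) β 0 ∈ cantorCube ι := by
        intro i
        left; simp
      have := hext (coord β) ⟨_, hm⟩
      simp only at this
      rw [this]
      simp [coord]
  set C : ℕ → Set (ι → unitInterval) := fun n =>
    ({x | Function.update x β 1 ∈ ZZ φ β 1 (2 / 3) n} ∩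
      {x | Function.update x β 0 ∈ ZZ φ β (-1) (-(1 / 3)) n}) ∪ Oᶜ with hC
  have hCclosed : ∀ n, IsClosed (C n) := by
    intro n
    exact (((ZZ_closed φ β _ _ n).preimage (hu 1)).inter
      ((ZZ_closed φ β _ _ n).preimage (hu 0))).union hOopen.isClosed_compl
  have hCcover : ⋃ n, C n = Set.univ := by
    rw [Set.eq_univ_iff_forall]
    intro x
    rw [Set.mem_iUnion]
    by_cases hx : x ∈ O
    · obtain ⟨n1, h1⟩ := ZZ_cover φ hφ β _ _ _ hx.1
      obtain ⟨n0, h0⟩ := ZZ_cover φ hφ β _ _ _ hx.2
      exact ⟨max n1 n0, Or.inl ⟨ZZ_mono φ β _ _ (le_max_left _ _) h1,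
        ZZ_mono φ β _ _ (le_max_right _ _) h0⟩⟩
    · exact ⟨0, Or.inr hx⟩
  have hdense := dense_iUnion_interior_of_closed hCclosed hCcover
  obtain ⟨z, hzO, hz⟩ := hdense.inter_open_nonempty O hOopen hOne
  rw [Set.mem_iUnion] at hz
  obtain ⟨n, hn⟩ := hz
  have hnb : O ∩ interior (C n) ∈ 𝓝 z := (hOopen.inter isOpen_interior).mem_nhds ⟨hzO, hn⟩
  rw [nhds_pi] at hnb
  obtain ⟨E, t, ht, hsub⟩ := Filter.mem_pi'.mp hnb
  have hr : ∀ᶠ M : ℕ in atTop, ∀ α ∈ E, Metric.ball (z α) (1 / ((M : ℝ) + 1)) ⊆ t α := by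
    rw [Filter.eventually_all_finset]
    intro α _
    obtain ⟨r, hr, hr'⟩ := Metric.mem_nhds_iff.mp (ht α)
    have : ∀ᶠ M : ℕ in atTop, 1 / ((M : ℝ) + 1) < r :=
      tendsto_one_div_add_atTop_nhds_zero_nat.eventually (gt_mem_nhds hr)
    filter_upwards [this] with M hM
    exact (Metric.ball_subset_ball hM.le).trans hr'
  obtain ⟨N, hN1, hN2, hN3⟩ := (hr.and ((eventually_ge_atTop n).and (eventually_ge_atTop E.card))).exists
  refine ⟨N, z, E, hN3, ?_⟩
  intro x hx
  have hmem : Function.update x β (z β) ∈ Set.pi (↑E) t := by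
    intro α hα
    by_cases hαβ : α = β
    · rw [hαβ]; simp only [Function.update_self]
      exact mem_of_mem_nhds (ht β)
    · rw [Function.update_of_ne hαβ]
      exact hN1 α hα (hx α hα hαβ)
  obtain ⟨h1, h2⟩ := hsub hmem
  rcases interior_subset h2 with h3 | h3
  · obtain ⟨h4, h5⟩ := h3
    simp only [Set.mem_setOf_eq, Function.update_idem] at h4 h5
    exact ⟨ZZ_mono φ β _ _ hN2 h4, ZZ_mono φ β _ _ hN2 h5⟩
  · exact absurd h1 h3

open Classical in
theorem delta (B : Set ι) (hB : B.Infinite) (N : ℕ) (r : ℝ) (hr : 0 < r)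
    (z : ι → ι → unitInterval) (E : ι → Finset ι) (hE : ∀ β ∈ B, (E β).card ≤ N) (k : ℕ) :
    ∃ (T : Finset ι) (w : ι → unitInterval), T.card = k ∧ (∀ β ∈ T, β ∈ B) ∧
      ∀ β ∈ T, ∀ α ∈ E β, α ≠ β → α ∉ T ∧ dist (w α) (z β α) < r := by
  have hne : (cofinite ⊓ 𝓟 B).NeBot := hB.cofinite_inf_principal_neBot
  set U : Ultrafilter ι := Ultrafilter.of (cofinite ⊓ 𝓟 B) with hU
  have hle : (U : Filter ι) ≤ cofinite ⊓ 𝓟 B := Ultrafilter.of_le _
  have hUB : ∀ᶠ β in (U : Filter ι), β ∈ B := (le_principal_iff.mp (hle.trans inf_le_right))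
  have hUcof : ∀ D : Finset ι, ∀ᶠ β in (U : Filter ι), β ∉ D := fun D =>
    (hle.trans inf_le_left) D.eventually_cofinite_notMem
  set R : Set ι := {α | ∀ᶠ β in (U : Filter ι), α ∈ E β} with hR
  have hRfin : R.Finite := by
    by_contra hinf
    obtain ⟨R', hR', hcard⟩ := Set.Infinite.exists_subset_card_eq hinf (N + 1)
    have : ∀ᶠ β in (U : Filter ι), ∀ α ∈ R', α ∈ E β := by
      rw [Filter.eventually_all_finset]
      intro α hα
      exact hR' hα
    obtain ⟨β, hβ1, hβ2⟩ := (this.and hUB).exists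
    have h1 : R'.card ≤ (E β).card := Finset.card_le_card hβ1
    have := hE β hβ2
    omega
  obtain ⟨w0, -, hw0⟩ := (isCompact_univ (X := ι → unitInterval)).ultrafilter_le_nhds (U.map z)
    (by simp)
  have hclose : ∀ᶠ β in (U : Filter ι), ∀ α ∈ hRfin.toFinset, dist (w0 α) (z β α) < r := by
    rw [Filter.eventually_all_finset]
    intro α _
    have h1 : Tendsto (fun β => z β α) (U : Filter ι) (𝓝 (w0 α)) :=
      ((continuous_apply α).tendsto w0).comp hw0
    have := (Metric.tendsto_nhds.mp h1) r hr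
    filter_upwards [this] with β hβ
    rw [dist_comm]; exact hβ
  suffices H : ∃ (T : Finset ι) (w : ι → unitInterval), T.card = k ∧ (∀ β ∈ T, β ∈ B ∧ β ∉ R) ∧
      (∀ α ∈ R, w α = w0 α) ∧ ∀ β ∈ T, ∀ α ∈ E β, α ≠ β → α ∉ T ∧ dist (w α) (z β α) < r by
    obtain ⟨T, w, h1, h2, _, h4⟩ := H
    exact ⟨T, w, h1, fun β hβ => (h2 β hβ).1, h4⟩
  induction k with
  | zero => exact ⟨∅, w0, rfl, by simp, fun _ _ => rfl, by simp⟩
  | succ k ih =>
    obtain ⟨T, w, h1, h2, h3, h4⟩ := ih
    set D : Finset ι := T ∪ T.biUnion E with hD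
    have havoid : ∀ᶠ β in (U : Filter ι), ∀ α ∈ D, α ∉ R → α ∉ E β := by
      rw [Filter.eventually_all_finset]
      intro α _
      by_cases hα : α ∈ R
      · exact Filter.Eventually.of_forall (fun _ h => absurd hα h)
      · have := Ultrafilter.eventually_not.mpr hα
        filter_upwards [this] with β hβ _
        exact hβ
    obtain ⟨β', e1, e2, e3, e4, e5⟩ :=
      (hUB.and ((hUcof D).and ((hUcof hRfin.toFinset).and (hclose.and havoid)))).exists
    have hβ'T : β' ∉ T := fun h => e2 (Finset.mem_union_left _ h)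
    have hβ'R : β' ∉ R := fun h => e3 (hRfin.mem_toFinset.mpr h)
    refine ⟨insert β' T, fun α => if α ∈ E β' ∧ α ∉ R then z β' α else w α, ?_, ?_, ?_, ?_⟩
    · rw [Finset.card_insert_of_notMem hβ'T, h1]
    · intro β hβ
      rcases Finset.mem_insert.mp hβ with rfl | hβ
      · exact ⟨e1, hβ'R⟩
      · exact h2 β hβ
    · intro α hα
      have : ¬ (α ∈ E β' ∧ α ∉ R) := fun h => h.2 hα
      simp only [this, if_false]
      exact h3 α hα
    · intro β hβ α hα hne
      rcases Finset.mem_insert.mp hβ with rfl | hβ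
      · constructor
        · intro hmem
          rcases Finset.mem_insert.mp hmem with h | h
          · exact hne h
          · exact e5 α (Finset.mem_union_left _ h) (h2 α h).2 hα
        · by_cases hαR : α ∈ R
          · have : ¬ (α ∈ E β ∧ α ∉ R) := fun h => h.2 hαR
            simp only [this, if_false]
            rw [h3 α hαR]
            exact e4 α (hRfin.mem_toFinset.mpr hαR)
          · have : α ∈ E β ∧ α ∉ R := ⟨hα, hαR⟩
            simp only [this, not_false_eq_true, and_self, if_true, dist_self]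
            exact hr
      · have hαD : α ∈ D := Finset.mem_union_right _ (Finset.mem_biUnion.mpr ⟨β, hβ, hα⟩)
        constructor
        · intro hmem
          rcases Finset.mem_insert.mp hmem with h | h
          · exact e2 (h ▸ hαD)
          · exact (h4 β hβ α hα hne).1 h
        · have : ¬ (α ∈ E β' ∧ α ∉ R) := fun h => e5 α hαD h.2 h.1
          simp only [this, if_false]
          exact (h4 β hβ α hα hne).2

/-- Projection of the Cantor cube onto finitely many coordinates. -/
noncomputable def proj {k : ℕ} (b : Fin k → ι) (y : cantorCube ι) : Fin k → Bool :=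
  fun i => decide (y.1 (b i) = 1)

theorem proj_cont {k : ℕ} (b : Fin k → ι) : Continuous (proj b) := by
  apply continuous_pi
  intro i
  have hc : Continuous (fun y : cantorCube ι => ((y.1 (b i) : unitInterval) : ℝ)) := (coord (b i)).2
  rw [continuous_bool_rng true]
  constructor
  · have : (fun y : cantorCube ι => proj b y i) ⁻¹' {true} =
        {y | 1 ≤ ((y.1 (b i) : unitInterval) : ℝ)} := by
      ext y
      simp only [proj, Set.mem_preimage, Set.mem_singleton_iff, decide_eq_true_eq, Set.mem_setOf_eq]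
      rcases y.2 (b i) with h | h <;> simp [h]
    rw [this]
    exact isClosed_le continuous_const hc
  · have : (fun y : cantorCube ι => proj b y i) ⁻¹' {true} =
        {y | 0 < ((y.1 (b i) : unitInterval) : ℝ)} := by
      ext y
      simp only [proj, Set.mem_preimage, Set.mem_singleton_iff, decide_eq_true_eq, Set.mem_setOf_eq]
      rcases y.2 (b i) with h | h <;> simp [h]
    rw [this]
    exact isOpen_lt continuous_const hc

/-- The function of finitely many coordinates given by a Boolean function. -/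
noncomputable def lift {k : ℕ} (b : Fin k → ι) (g : (Fin k → Bool) → Bool) : Cp (cantorCube ι) :=
  ⟨fun y => if g (proj b y) then 1 else 0,
    (continuous_of_discreteTopology
      (f := fun v : Fin k → Bool => if g v then (1 : ℝ) else 0)).comp (proj_cont b)⟩

theorem lift_ne {k : ℕ} (b : Fin k → ι) (g : (Fin k → Bool) → Bool) (i : Fin k) (s : cantorCube ι)
    (h : (lift b g).1 s ≠ (coord (b i)).1 s) : g (proj b s) ≠ proj b s i := by
  intro hcon
  apply h
  simp only [lift, coord, hcon, proj]
  rcases s.2 (b i) with h | h <;> simp [h]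

theorem main [Uncountable ι] : ¬ TEmbedded (cantorCube ι) := by
  classical
  rintro ⟨φ, hφ, hext⟩
  choose Nf z E hE hZ using step1 φ hφ hext
  have hB : ∃ N, (Nf ⁻¹' {N}).Infinite := by
    by_contra hcon
    push Not at hcon
    have : (Set.univ : Set ι) = ⋃ N, Nf ⁻¹' {N} := by
      ext β; simp
    have hc : (Set.univ : Set ι).Countable := by
      rw [this]
      exact Set.countable_iUnion (fun N => (hcon N).countable)
    exact Set.not_countable_univ hc
  obtain ⟨N, hB⟩ := hB
  obtain ⟨k, hk⟩ := cube N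
  obtain ⟨T, w, hT, hTB, hw⟩ := delta (Nf ⁻¹' {N}) hB N (1 / ((N : ℝ) + 1)) (by positivity) z E
    (fun β hβ => by
      have : Nf β = N := hβ
      rw [← this]; exact hE β) k
  set e : T ≃ Fin k := T.equivFinOfCardEq hT with he
  set b : Fin k → ι := fun i => (e.symm i : ι) with hb
  set xm : (Fin k → unitInterval) → (ι → unitInterval) :=
    fun t α => if h : α ∈ T then t (e ⟨α, h⟩) else w α with hxm
  have hxc : Continuous xm := by
    apply continuous_pi
    intro α
    by_cases h : α ∈ T
    · simp only [hxm, h, dif_pos]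
      exact continuous_apply _
    · simp only [hxm, h, dif_neg, not_false_eq_true]
      exact continuous_const
  have hxb : ∀ t i, xm t (b i) = t i := by
    intro t i
    have h : b i ∈ T := (e.symm i).2
    simp only [hxm, h, dif_pos]
    congr 1
    exact e.apply_symm_apply i
  have hgood : ∀ t i, Function.update (xm t) (b i) 1 ∈ ZZ φ (b i) 1 (2 / 3) N ∧
      Function.update (xm t) (b i) 0 ∈ ZZ φ (b i) (-1) (-(1 / 3)) N := by
    intro t i
    have h : b i ∈ T := (e.symm i).2
    have hN : Nf (b i) = N := hTB _ h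
    have := hZ (b i) (xm t) (by
      intro α hα hne
      obtain ⟨h1, h2⟩ := hw (b i) h α hα hne
      simp only [hxm, h1, dif_neg, not_false_eq_true]
      rw [hN]; exact h2)
    rw [hN] at this
    exact this
  have hfin : ∀ (i : Fin k) (x : ι → unitInterval) (sg c : ℝ), x ∈ ZZ φ (b i) sg c N →
      ∃ S : Finset (Fin k → Bool), S.card ≤ N ∧
        ∀ g, sg * (φ (lift b g)).1 x < c → ∃ s ∈ S, g s ≠ s i := by
    intro i x sg c hx
    obtain ⟨S, hS, hS'⟩ := hx
      ((Finset.univ.filter (fun g => sg * (φ (lift b g)).1 x < c)).image (lift b)) (by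
        intro f hf
        rw [Finset.mem_image] at hf
        obtain ⟨g, hg, rfl⟩ := hf
        exact (Finset.mem_filter.mp hg).2)
    refine ⟨S.image (proj b), Finset.card_image_le.trans hS, fun g hg => ?_⟩
    obtain ⟨s, hs, hne⟩ := hS' (lift b g)
      (Finset.mem_image.mpr ⟨g, Finset.mem_filter.mpr ⟨Finset.mem_univ _, hg⟩, rfl⟩)
    exact ⟨proj b s, Finset.mem_image.mpr ⟨s, hs, rfl⟩, lift_ne b g i s hne⟩
  apply hk (fun g t => (φ (lift b g)).1 (xm t))
  · intro g
    exact (φ (lift b g)).2.comp hxc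
  · intro i t ht
    have h1 := (hgood t i).1
    rw [← ht, ← hxb t i, Function.update_eq_self] at h1
    obtain ⟨S, hS, hS'⟩ := hfin i _ _ _ h1
    exact ⟨S, hS, fun g hg => hS' g (by linarith)⟩
  · intro i t ht
    have h1 := (hgood t i).2
    rw [← ht, ← hxb t i, Function.update_eq_self] at h1
    obtain ⟨S, hS, hS'⟩ := hfin i _ _ _ h1
    exact ⟨S, hS, fun g hg => hS' g (by linarith)⟩

end Pool.Agent.H421Z.TEmb
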